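import Pool.Agent.PDN.Stmts

/-!
# PDN, row LNK: the link of a vertex of degree four
-/

set_option autoImplicit false

namespace Pool.Agent.PDN.H81

open Pool.Agent.PDN

theorem f_inj {V : Type} (T : Tri V) {t v v' w : V} (h : T.f t v w) (h' : T.f t v' w) :
    v = v' :=
  T.uniq (T.cyc (T.cyc h)) (T.cyc (T.cyc h'))

theorem f_adj {V : Type} (T : Tri V) {t v w : V} (h : T.f t v w) : T.Adj t w :=
  T.opp (T.cyc (T.cyc h))

theorem closed_gen {V : Type} {r : V → V → Prop} {a v : V} (C : V → Prop)
    (h : Relation.ReflTransGen r a v) (hC : C a) (hcl : ∀ v w, C v → r v w → C w) : C v := by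
  induction h with
  | refl => exact hC
  | tail _ hbc ih => exact hcl _ _ ih hbc

theorem closed_all {V : Type} (T : Tri V) {t a : V} (C : V → Prop) (ha : T.Adj t a) (hC : C a)
    (hcl : ∀ v w, C v → T.f t v w → C w) : ∀ v, T.Adj t v → C v :=
  fun _ hv => closed_gen C (T.link ha hv) hC hcl

open Classical in
theorem deg_le {V : Type} [Fintype V] (T : Tri V) (t : V) (S : Finset V)
    (h : ∀ v, T.Adj t v → v ∈ S) : T.deg t ≤ S.card := by
  unfold Tri.deg
  rw [Nat.card_eq_fintype_card, Fintype.card_subtype]
  refine Finset.card_le_card (fun v hv => h v ?_)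
  simpa using hv

open Classical in
theorem mem_of_card {V : Type} [Fintype V] (T : Tri V) (t : V) (S : Finset V)
    (h : ∀ v ∈ S, T.Adj t v) (hc : T.deg t ≤ S.card) : ∀ v, T.Adj t v → v ∈ S := by
  unfold Tri.deg at hc
  rw [Nat.card_eq_fintype_card, Fintype.card_subtype] at hc
  have hsub : S ⊆ Finset.univ.filter (fun v => T.Adj t v) := by
    intro v hv
    simpa using h v hv
  have := Finset.eq_of_subset_of_card_le hsub hc
  intro v hv
  rw [this]
  simpa using hv

theorem lnk : LnkStmt := by
  classical
  intro V _ T t n₁ hdeg h1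
  obtain ⟨n₂, h12⟩ := h1
  obtain ⟨n₃, h23⟩ := f_adj T h12
  obtain ⟨n₄, h34⟩ := f_adj T h23
  obtain ⟨n₅, h45⟩ := f_adj T h34
  have a1 : T.Adj t n₁ := ⟨n₂, h12⟩
  have a2 : T.Adj t n₂ := ⟨n₃, h23⟩
  have a3 : T.Adj t n₃ := ⟨n₄, h34⟩
  have a4 : T.Adj t n₄ := ⟨n₅, h45⟩
  have e12 : n₁ ≠ n₂ := by
    intro h
    subst h
    have := closed_all T (fun v => v = n₁) a1 rfl (by
      intro v w hv hf
      subst hv
      exact T.uniq hf h12)
    have hle := deg_le T t {n₁} (by simpa using this)
    simp only [Finset.card_singleton] at hle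
    omega
  have e23 : n₂ ≠ n₃ := by
    intro h
    subst h
    exact e12 (f_inj T h12 h23)
  have e13 : n₁ ≠ n₃ := by
    intro h
    subst h
    have := closed_all T (fun v => v = n₁ ∨ v = n₂) a1 (Or.inl rfl) (by
      rintro v w (hv | hv) hf
      · subst hv
        exact Or.inr (T.uniq hf h12)
      · subst hv
        exact Or.inl (T.uniq hf h23))
    have hle := deg_le T t {n₁, n₂} (by simpa using this)
    have hc : ({n₁, n₂} : Finset V).card ≤ 2 := Finset.card_le_two
    omega
  have e34 : n₃ ≠ n₄ := by
    intro h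
    subst h
    exact e23 (f_inj T h23 h34)
  have e24 : n₂ ≠ n₄ := by
    intro h
    subst h
    exact e13 (f_inj T h12 h34)
  have e14 : n₁ ≠ n₄ := by
    intro h
    subst h
    have := closed_all T (fun v => v = n₁ ∨ v = n₂ ∨ v = n₃) a1 (Or.inl rfl) (by
      rintro v w (hv | hv | hv) hf
      · subst hv
        exact Or.inr (Or.inl (T.uniq hf h12))
      · subst hv
        exact Or.inr (Or.inr (T.uniq hf h23))
      · subst hv
        exact Or.inl (T.uniq hf h34))
    have hle := deg_le T t {n₁, n₂, n₃} (by simpa using this)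
    have hc : ({n₁, n₂, n₃} : Finset V).card ≤ 3 := Finset.card_le_three
    omega
  have hcard : ({n₁, n₂, n₃, n₄} : Finset V).card = 4 := by
    rw [Finset.card_insert_of_notMem (by simp [e12, e13, e14]),
      Finset.card_insert_of_notMem (by simp [e23, e24]),
      Finset.card_insert_of_notMem (by simp [e34]), Finset.card_singleton]
  have hall := mem_of_card T t {n₁, n₂, n₃, n₄} (by
    intro v hv
    simp only [Finset.mem_insert, Finset.mem_singleton] at hv
    rcases hv with rfl | rfl | rfl | rfl
    · exact a1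
    · exact a2
    · exact a3
    · exact a4) (by rw [hcard, hdeg])
  have h5 := hall n₅ (f_adj T h45)
  simp only [Finset.mem_insert, Finset.mem_singleton] at h5
  have h51 : n₅ = n₁ := by
    rcases h5 with h | h | h | h
    · exact h
    · subst h
      exact absurd (f_inj T h12 h45) e14
    · subst h
      exact absurd (f_inj T h23 h45) e24
    · subst h
      exact absurd (f_inj T h34 h45) e34
  subst h51
  refine ⟨n₂, n₃, n₄, h12, h23, h34, h45, e12, e13, e14, e23, e24, e34, fun v => ⟨fun hv => ?_, ?_⟩⟩
  · have := hall v hv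
    simpa only [Finset.mem_insert, Finset.mem_singleton] using this
  · rintro (rfl | rfl | rfl | rfl)
    · exact a1
    · exact a2
    · exact a3
    · exact a4

end Pool.Agent.PDN.H81
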