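import Pool.Agent.PDN.Stmts
import Pool.Agent.Helper81_PDN.LNK

/-!
# PDN, row BIP: the bipyramid
-/

set_option autoImplicit false

namespace Pool.Agent.PDN.H81

open Pool.Agent.PDN

/-- the direction of the face at the apex `b` -/
def gg {N : ℕ} (b : Bool) (i j : ZMod N) : Prop := if b = true then j = i + 1 else i = j + 1

theorem gg_true {N : ℕ} (i j : ZMod N) : gg true i j ↔ j = i + 1 := by simp [gg]

theorem gg_false {N : ℕ} (i j : ZMod N) : gg false i j ↔ i = j + 1 := by simp [gg]

/-- the faces of the bipyramid -/
def bf {N : ℕ} : ZMod N ⊕ Bool → ZMod N ⊕ Bool → ZMod N ⊕ Bool → Prop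
  | .inl i, .inl j, .inr b => gg b i j
  | .inl i, .inr b, .inl j => gg b j i
  | .inr b, .inl i, .inl j => gg b i j
  | _, _, _ => False

theorem one_ne {N : ℕ} (hN : 3 ≤ N) : (1 : ZMod N) ≠ 0 := by
  intro h
  have h1 : ((1 : ℕ) : ZMod N) = 0 := by simpa using h
  rw [ZMod.natCast_eq_zero_iff] at h1
  have := Nat.le_of_dvd (by norm_num) h1
  omega

theorem two_ne {N : ℕ} (hN : 3 ≤ N) : (2 : ZMod N) ≠ 0 := by
  intro h
  have h1 : ((2 : ℕ) : ZMod N) = 0 := by simpa using h
  rw [ZMod.natCast_eq_zero_iff] at h1
  have := Nat.le_of_dvd (by norm_num) h1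
  omega

theorem link_l {N : ℕ} (i : ZMod N) :
    ∀ v : ZMod N ⊕ Bool, (∃ z, bf (.inl i) v z) →
      Relation.ReflTransGen (bf (.inl i)) (.inr true) v ∧
      Relation.ReflTransGen (bf (.inl i)) v (.inr true) := by
  have e1 : bf (.inl i) (.inr true) (.inl (i - 1)) := by
    show gg true (i - 1) i
    rw [gg_true]; ring
  have e2 : bf (.inl i) (.inl (i - 1)) (.inr false) := by
    show gg false i (i - 1)
    rw [gg_false]; ring
  have e3 : bf (.inl i) (.inr false) (.inl (i + 1)) := by
    show gg false (i + 1) i
    rw [gg_false]
  have e4 : bf (.inl i) (.inl (i + 1)) (.inr true) := by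
    show gg true i (i + 1)
    rw [gg_true]
  have r1 := Relation.ReflTransGen.single e1
  have r2 := Relation.ReflTransGen.single e2
  have r3 := Relation.ReflTransGen.single e3
  have r4 := Relation.ReflTransGen.single e4
  rintro (j | b) ⟨z, hz⟩
  · rcases z with k | b
    · exact hz.elim
    · cases b with
      | true =>
        have : j = i + 1 := (gg_true i j).mp hz
        subst this
        exact ⟨(r1.trans r2).trans r3, r4⟩
      | false =>
        have : i = j + 1 := (gg_false i j).mp hz
        have hj : j = i - 1 := by rw [this]; ring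
        subst hj
        exact ⟨r1, (r2.trans r3).trans r4⟩
  · cases b with
    | true => exact ⟨Relation.ReflTransGen.refl, Relation.ReflTransGen.refl⟩
    | false => exact ⟨r1.trans r2, r3.trans r4⟩

theorem link_r {N : ℕ} [NeZero N] (b : Bool) (i j : ZMod N) :
    Relation.ReflTransGen (bf (.inr b)) (.inl i) (.inl j) := by
  cases b with
  | true =>
    have h : ∀ k : ℕ, Relation.ReflTransGen (bf (.inr true)) (.inl i) (.inl (i + (k : ZMod N))) := by
      intro k
      induction k with
      | zero => simpa using Relation.ReflTransGen.refl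
      | succ k ih =>
        refine ih.tail ?_
        show gg true _ _
        rw [gg_true]; push_cast; ring
    have := h (j - i).val
    rw [ZMod.natCast_zmod_val, add_sub_cancel] at this
    exact this
  | false =>
    have h : ∀ k : ℕ, Relation.ReflTransGen (bf (.inr false)) (.inl i)
        (.inl (i - (k : ZMod N))) := by
      intro k
      induction k with
      | zero => simpa using Relation.ReflTransGen.refl
      | succ k ih =>
        refine ih.tail ?_
        show gg false _ _
        rw [gg_false]; push_cast; ring
    have := h (i - j).val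
    rw [ZMod.natCast_zmod_val, sub_sub_cancel] at this
    exact this

/-- the bipyramid -/
def bipT (N : ℕ) [NeZero N] (hN : 3 ≤ N) : Tri (ZMod N ⊕ Bool) where
  f := bf
  cyc := by
    rintro (i | b) (j | c) (k | d) h
    all_goals first
      | exact h
      | exact h.elim
  uniq := by
    rintro (i | b) (j | c) (k | d) (l | e) h h'
    all_goals first
      | exact h.elim
      | exact h'.elim
      | skip
    · -- inl inl inr inr
      have h1 : gg d i j := h
      have h2 : gg e i j := h'
      cases d <;> cases e
      · rfl
      · rw [gg_false] at h1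
        rw [gg_true] at h2
        exfalso
        apply two_ne hN
        have : i = i + 2 := by
          calc i = j + 1 := h1
            _ = i + 2 := by rw [h2]; ring
        exact (add_eq_left.mp this.symm)
      · rw [gg_true] at h1
        rw [gg_false] at h2
        exfalso
        apply two_ne hN
        have : i = i + 2 := by
          calc i = j + 1 := h2
            _ = i + 2 := by rw [h1]; ring
        exact (add_eq_left.mp this.symm)
      · rfl
    · have h1 : gg c k i := h
      have h2 : gg c l i := h'
      cases c
      · rw [gg_false] at h1 h2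
        rw [h1, h2]
      · rw [gg_true] at h1 h2
        rw [add_right_cancel (h1.symm.trans h2)]
    · have h1 : gg b j k := h
      have h2 : gg b j l := h'
      cases b
      · rw [gg_false] at h1 h2
        rw [add_right_cancel (h1.symm.trans h2)]
      · rw [gg_true] at h1 h2
        rw [h1, h2]
  opp := by
    rintro (i | b) (j | c) (k | d) h
    all_goals first
      | exact h.elim
      | skip
    · have h1 : gg d i j := h
      cases d
      · refine ⟨.inr true, ?_⟩
        show gg true j i
        rw [gg_false] at h1
        rw [gg_true]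
        exact h1
      · refine ⟨.inr false, ?_⟩
        show gg false j i
        rw [gg_true] at h1
        rw [gg_false]
        exact h1
    · cases c
      · refine ⟨.inl (i - 1), ?_⟩
        show gg false i (i - 1)
        rw [gg_false]; ring
      · refine ⟨.inl (i + 1), ?_⟩
        show gg true i (i + 1)
        rw [gg_true]
    · cases b
      · refine ⟨.inl (j + 1), ?_⟩
        show gg false (j + 1) j
        rw [gg_false]
      · refine ⟨.inl (j - 1), ?_⟩
        show gg true (j - 1) j
        rw [gg_true]; ring
  ne := by
    rintro (i | b) (j | c) (k | d) h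
    all_goals first
      | exact h.elim
      | skip
    · have h1 : gg d i j := h
      intro hij
      have hij' : i = j := Sum.inl.inj hij
      subst hij'
      cases d
      · rw [gg_false] at h1
        exact one_ne hN (add_eq_left.mp h1.symm)
      · rw [gg_true] at h1
        exact one_ne hN (add_eq_left.mp h1.symm)
    · exact fun h => by cases h
    · exact fun h => by cases h
  link := by
    rintro (i | b) v w hv hw
    · exact (link_l i v hv).2.trans (link_l i w hw).1
    · rcases v with j | c
      · rcases w with k | d
        · exact link_r b j k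
        · obtain ⟨z, hz⟩ := hw
          exact hz.elim
      · obtain ⟨z, hz⟩ := hv
        exact hz.elim

theorem adj_lr {N : ℕ} [NeZero N] (hN : 3 ≤ N) (i : ZMod N) (b : Bool) :
    (bipT N hN).Adj (.inl i) (.inr b) := by
  cases b
  · refine ⟨.inl (i + 1), ?_⟩
    show gg false (i + 1) i
    rw [gg_false]
  · refine ⟨.inl (i - 1), ?_⟩
    show gg true (i - 1) i
    rw [gg_true]; ring

theorem adj_ll {N : ℕ} [NeZero N] (hN : 3 ≤ N) (i j : ZMod N) :
    (bipT N hN).Adj (.inl i) (.inl j) ↔ j = i + 1 ∨ i = j + 1 := by
  constructor
  · rintro ⟨z, hz⟩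
    rcases z with k | b
    · exact hz.elim
    · have h : gg b i j := hz
      cases b
      · exact Or.inr ((gg_false i j).mp h)
      · exact Or.inl ((gg_true i j).mp h)
  · rintro (h | h)
    · exact ⟨.inr true, (gg_true i j).mpr h⟩
    · exact ⟨.inr false, (gg_false i j).mpr h⟩

theorem not_adj_rr {N : ℕ} [NeZero N] (hN : 3 ≤ N) (b c : Bool) :
    ¬ (bipT N hN).Adj (.inr b) (.inr c) := by
  rintro ⟨z, hz⟩
  rcases z with k | d
  · exact hz
  · exact hz

theorem bip : BipStmt := by
  classical
  intro N hN
  have : NeZero N := ⟨by omega⟩
  set T := bipT N hN with hT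
  refine ⟨ZMod N ⊕ Bool, inferInstance, T, fun i => .inl (i : ZMod N), .inr true, .inr false,
    ?_, ?_, ?_, ?_, ?_, ?_, ?_, ?_, ?_⟩
  · intro i j hi hj h
    have h1 : ((i : ℕ) : ZMod N) = (j : ℕ) := Sum.inl.inj h
    rw [ZMod.natCast_eq_natCast_iff', Nat.mod_eq_of_lt hi, Nat.mod_eq_of_lt hj] at h1
    exact h1
  · intro h
    have := Sum.inr.inj h
    exact Bool.noConfusion this
  · intro i
    constructor <;> (intro h; cases h)
  · rintro (a | b)
    · right; right
      refine ⟨a.val, ZMod.val_lt a, ?_⟩
      show (Sum.inl a : ZMod N ⊕ Bool) = Sum.inl ((a.val : ℕ) : ZMod N)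
      rw [ZMod.natCast_zmod_val]
    · cases b
      · exact Or.inr (Or.inl rfl)
      · exact Or.inl rfl
  · intro i
    constructor
    · show gg true ((i : ℕ) : ZMod N) ((i + 1 : ℕ) : ZMod N)
      rw [gg_true]; push_cast; ring
    · show gg false ((i + 1 : ℕ) : ZMod N) ((i : ℕ) : ZMod N)
      rw [gg_false]; push_cast; ring
  · intro i
    set a : ZMod N := (i : ZMod N) with ha
    have hle : T.deg (.inl a) ≤ ({.inl (a + 1), .inl (a - 1), .inr true, .inr false} :
        Finset (ZMod N ⊕ Bool)).card := by
      refine deg_le T _ _ ?_
      rintro (j | b) hv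
      · rw [adj_ll hN] at hv
        rcases hv with h | h
        · simp [h]
        · have : j = a - 1 := by rw [h]; ring
          simp [this]
      · cases b <;> simp
    have hcard : ({.inl (a + 1), .inl (a - 1), .inr true, .inr false} :
        Finset (ZMod N ⊕ Bool)).card = 4 := by
      have h0 : a + 1 ≠ a - 1 := by
        intro h
        apply two_ne hN
        calc (2 : ZMod N) = (a + 1) - (a - 1) := by ring
          _ = 0 := by rw [h]; ring
      rw [Finset.card_insert_of_notMem (by simp [h0]), Finset.card_insert_of_notMem (by simp),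
        Finset.card_insert_of_notMem (by simp), Finset.card_singleton]
    have hge : ({.inl (a + 1), .inl (a - 1), .inr true, .inr false} :
        Finset (ZMod N ⊕ Bool)).card ≤ T.deg (.inl a) := by
      unfold Tri.deg
      rw [Nat.card_eq_fintype_card, Fintype.card_subtype]
      refine Finset.card_le_card ?_
      intro v hv
      simp only [Finset.mem_insert, Finset.mem_singleton] at hv
      simp only [Finset.mem_filter, Finset.mem_univ, true_and]
      rcases hv with rfl | rfl | rfl | rfl
      · exact (adj_ll hN _ _).mpr (Or.inl rfl)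
      · exact (adj_ll hN _ _).mpr (Or.inr (by ring))
      · exact adj_lr hN a true
      · exact adj_lr hN a false
    exact le_antisymm (hcard ▸ hle) (hcard ▸ hge)
  · unfold Tri.deg
    rw [Nat.card_congr (β := ZMod N) ?_, Nat.card_zmod]
    exact {
      toFun := fun v => match v with
        | ⟨.inl i, _⟩ => i
        | ⟨.inr c, hc⟩ => (not_adj_rr hN _ _ hc).elim
      invFun := fun i => ⟨.inl i, T.adj_symm (adj_lr hN i true)⟩
      left_inv := by
        rintro ⟨i | c, hc⟩
        · rfl
        · exact (not_adj_rr hN _ _ hc).elim
      right_inv := fun i => rfl }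
  · unfold Tri.deg
    rw [Nat.card_congr (β := ZMod N) ?_, Nat.card_zmod]
    exact {
      toFun := fun v => match v with
        | ⟨.inl i, _⟩ => i
        | ⟨.inr c, hc⟩ => (not_adj_rr hN _ _ hc).elim
      invFun := fun i => ⟨.inl i, T.adj_symm (adj_lr hN i false)⟩
      left_inv := by
        rintro ⟨i | c, hc⟩
        · rfl
        · exact (not_adj_rr hN _ _ hc).elim
      right_inv := fun i => rfl }
  · have hlr : ∀ (i : ZMod N) (b : Bool), T.graph.Reachable (.inl i) (.inr b) :=
      fun i b => SimpleGraph.Adj.reachable (adj_lr hN i b)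
    have hall : ∀ v, T.graph.Reachable v (.inr true) := by
      rintro (i | b)
      · exact hlr i true
      · exact (hlr 0 b).symm.trans (hlr 0 true)
    have : Nonempty (ZMod N ⊕ Bool) := ⟨.inr true⟩
    exact ⟨fun u v => (hall u).trans (hall v).symm⟩

end Pool.Agent.PDN.H81
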